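import Mathlib
import Pool.Agent.Q171.ERW.Main

/-! # The quenched CLT fails for excited random walk with i.i.d. cookies

Dimension one. A cookie environment is a function `w : ℤ × ℕ → [0, 1]`; `w (z, i)` is the
probability that the walk steps to `z + 1` on its `i`-th visit to `z` (and `1 - w (z, i)` the
probability that it steps to `z - 1`). If the cookies are i.i.d. with mean `1/2` (zero drift) and
are not almost surely equal to `1/2`, then it is not true that for almost every environment the
walk satisfies a central limit theorem with environment dependent centring: with positive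
probability no centring works. -/

set_option autoImplicit false

noncomputable section

namespace Pool.Agent.Results.MP_0d3db7_pr.QuenchedCLTFails

open MeasureTheory ProbabilityTheory Filter Topology Set
open scoped NNReal

/-- Position at time `n` of the walk started at `0` whose first `n` steps are recorded in `h`
(latest step first, `true` is `+1` and `false` is `-1`). -/
def position : List Bool → ℤ
  | [] => 0
  | b :: h => position h + (if b then 1 else -1)

/-- The number of times `m < n` with `X_m = z`, `n` being the length of the history `h`. -/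
def earlierVisits (z : ℤ) : List Bool → ℕ
  | [] => 0
  | _ :: h => earlierVisits z h + (if position h = z then 1 else 0)

/-- The conditional probability, given the history `h`, that the next step is `+1` in the
environment `w`: the present visit to `X_n` is number `earlierVisits (X_n) + 1`. -/
def stepProb (w : ℤ × ℕ → ℝ) (h : List Bool) : ℝ :=
  w (position h, earlierVisits (position h) h + 1)

/-- `Expect p n Φ`: expectation of `Φ` (history of the first `n` steps) for the process whose
next step is `+1` with conditional probability `p h` given the history `h`. -/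
def Expect (p : List Bool → ℝ) : ℕ → (List Bool → ℝ) → ℝ
  | 0, Φ => Φ []
  | n + 1, Φ => Expect p n (fun h => p h * Φ (true :: h) + (1 - p h) * Φ (false :: h))

/-- The quenched distribution function `P_w (X_n ≤ x)`. -/
def quenchedCdf (w : ℤ × ℕ → ℝ) (n : ℕ) (x : ℝ) : ℝ :=
  Expect (stepProb w) n (fun h => if (position h : ℝ) ≤ x then 1 else 0)

/-- The quenched CLT in the environment `w`: for some centring `c` and some `v > 0` the law of
`(X_n - c n) / √n` under `P_w` converges in distribution to `N(0, v)`. -/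
def QuenchedCLT (w : ℤ × ℕ → ℝ) : Prop :=
  ∃ c : ℕ → ℝ, ∃ v : ℝ≥0, v ≠ 0 ∧ ∀ t : ℝ,
    Tendsto (fun n : ℕ => quenchedCdf w n (c n + t * Real.sqrt n)) atTop
      (𝓝 ((gaussianReal 0 v).real (Iic t)))

/-- The cookies are i.i.d. with values in `[0, 1]`. -/
structure IIDCookies {Ω : Type} [MeasurableSpace Ω] (P : Measure Ω) (X : ℤ × ℕ → Ω → ℝ) :
    Prop where
  meas : ∀ c, Measurable (X c)
  mem : ∀ c a, 0 ≤ X c a ∧ X c a ≤ 1
  indep : iIndepFun X P
  ident : ∀ c, IdentDistrib (X c) (X (0, 1)) P P

/-! ### Comparison with the working definitions -/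

lemma position_eq (h : List Bool) : position h = Q171.ERW.pos h := by
  induction h with
  | nil => rfl
  | cons b h ih => simp only [position, Q171.ERW.pos, ih]

lemma earlierVisits_eq (z : ℤ) (h : List Bool) : earlierVisits z h = Q171.ERW.prior z h := by
  induction h with
  | nil => rfl
  | cons b h ih => simp only [earlierVisits, Q171.ERW.prior, ih, position_eq]

lemma Expect_eq (p : List Bool → ℝ) (n : ℕ) (Φ : List Bool → ℝ) :
    Expect p n Φ = Q171.ERW.Ex p n Φ := by
  induction n generalizing Φ with
  | zero => rfl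
  | succ n ih => simp only [Expect, Q171.ERW.Ex, ih]

lemma quenchedCdf_eq (w : ℤ × ℕ → ℝ) (n : ℕ) (x : ℝ) :
    quenchedCdf w n x = Q171.ERW.qcdf w n x := by
  unfold quenchedCdf Q171.ERW.qcdf
  rw [Expect_eq]
  have h1 : stepProb w = fun h => w (Q171.ERW.cookie h) := by
    funext h
    simp only [stepProb, Q171.ERW.cookie, position_eq, earlierVisits_eq]
  rw [h1]
  simp only [position_eq]

lemma QuenchedCLT_iff (w : ℤ × ℕ → ℝ) : QuenchedCLT w ↔ Q171.ERW.QuenchedCLT w := by
  unfold QuenchedCLT Q171.ERW.QuenchedCLT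
  simp only [quenchedCdf_eq]

/-- **Main theorem.** (1) For i.i.d. cookies on `ℤ` with mean `1/2`, not almost surely `1/2`, the
quenched CLT does not hold for almost every environment. (2) Such environments exist with cookies
in `{1/2 - κ, 1/2 + κ}`, for every `κ ∈ (0, 1/2]`. -/
theorem result :
    (∀ (Ω : Type) [MeasurableSpace Ω] (P : Measure Ω) [IsProbabilityMeasure P]
      (X : ℤ × ℕ → Ω → ℝ), IIDCookies P X → ∫ a, X (0, 1) a ∂P = 1 / 2 →
      (¬ ∀ᵐ a ∂P, X (0, 1) a = 1 / 2) →
      ¬ ∀ᵐ a ∂P, QuenchedCLT (fun c => X c a)) ∧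
    (∀ κ : ℝ, 0 < κ → κ ≤ 1 / 2 →
      ∃ (Ω : Type) (_ : MeasurableSpace Ω) (P : Measure Ω) (_ : IsProbabilityMeasure P)
        (X : ℤ × ℕ → Ω → ℝ), IIDCookies P X ∧
        (∀ c a, X c a = 1 / 2 + κ ∨ X c a = 1 / 2 - κ) ∧
        ∫ a, X (0, 1) a ∂P = 1 / 2 ∧
        ¬ ∀ᵐ a ∂P, QuenchedCLT (fun c => X c a)) := by
  have main : ∀ (Ω : Type) [MeasurableSpace Ω] (P : Measure Ω) [IsProbabilityMeasure P]
      (X : ℤ × ℕ → Ω → ℝ), IIDCookies P X → ∫ a, X (0, 1) a ∂P = 1 / 2 →
      (¬ ∀ᵐ a ∂P, X (0, 1) a = 1 / 2) →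
      ¬ ∀ᵐ a ∂P, QuenchedCLT (fun c => X c a) := by
    intro Ω _ P _ X hX hmean hnt
    simp only [QuenchedCLT_iff]
    exact Q171.ERW.quenched_clt_fails ⟨hX.meas, hX.mem, hX.indep, hX.ident⟩ hmean hnt
  refine ⟨main, ?_⟩
  intro κ hκ0 hκ1
  obtain ⟨h1, h2, h3⟩ := Q171.ERW.exists_env hκ0 hκ1
  refine ⟨(ℤ × ℕ) → Bool, inferInstance, Measure.infinitePi (fun _ : ℤ × ℕ => Q171.ERW.coin),
    inferInstance, fun c a => Q171.ERW.ck κ (a c), ⟨h1.meas, h1.mem, h1.indep, h1.ident⟩, ?_, h2,
    main _ _ _ ⟨h1.meas, h1.mem, h1.indep, h1.ident⟩ h2 h3⟩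
  intro c a
  simp only [Q171.ERW.ck]
  cases a c
  · right; simp
  · left; simp

end Pool.Agent.Results.MP_0d3db7_pr.QuenchedCLTFails
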